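import Mathlib
import Pool.Agent.N178.HW.Fac
import Pool.Agent.N994.FH.K2
import Pool.Agent.N994.VO.Hodge2
import Pool.Agent.N994.VO.VAN2

/-!
# Cycles on the exterior powers of the transcendental motive of a K3 surface, and Voisin's
# anti-symmetrization conjecture for the K3 surfaces which are dominated by abelian varieties

Let `S` be a K3 surface whose transcendental motive `M = t_2(S)` is a direct summand `(X, p)` of the
Chow motive of an abelian variety `X` in the class below; for example `S` is dominated by `X`, or by a
product of curves of positive genus such that the product of their Jacobians is `X`. We prove that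
`CH_l(Λ^N t_2(S)) = 0` for all `N ≥ 2` and `l ≤ N - 2`, with rational coefficients.

This implies Voisin's conjecture, that the projector `p_(Λ^(N + 1))` acts as zero on
`K_l ⊗ CH_0(S)_num` for `0 ≤ l < N`. (This deduction is not in the Lean proof.) The motive of `S` is the sum
of the unit motive, of `t_2(S)`, of `ρ` copies of the Lefschetz motive `L` and of `L^2`. The kernel `K_l`
is `CH_l(Λ^N M')`, where `M'` is the sum of the other motives than the unit motive, and
`CH_0(S)_num = CH_0(t_2(S))`. So the image of `z × w` belongs to the sum of the groups
`CH_l(Λ^a t_2(S) ⊗ Λ^b (ρ L + L^2))`, `a ≥ 1`, `a + b = N + 1`, which are sums of the groups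
`CH_(l - b)(Λ^a t_2(S))` and `CH_(l - b - 1)(Λ^a t_2(S))`; and `l - b ≤ N - 1 - b = a - 2`.

The theorem below is for all direct summands `M = (X, p)` of the Chow motive of `X` which have
cohomology in degree two only and `h^(2, 0)(M), h^(0, 2)(M) ≤ 1`. Here `Λ^N M` is the image of the
projector `(1 / N!) ∑_σ sgn(σ) σ ∘ (p × ... × p)` on `X^N`. For other weights and Hodge numbers see
`Pool.Agent.Results.MP_a2ccc3_ag.ExteriorPowers`.

Let `P` be the class of all simple complex abelian varieties `Y`, of any dimension, such that the
periods of `Y` have coordinates (with respect to a basis of the tangent space) in a subfield `k` of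
`ℂ` as follows:

* `k` is a number field of degree at most four, and `Y` has no complex multiplication;
* `k` is a number field of degree at most six, and `End(Y)` is of Albert type I or II;
* `k` is a number field of odd degree, or no totally real subfield `F ≠ ℚ` of `k` is fixed by all real
  embeddings of `k` and `k` contains no imaginary quadratic field (for instance `k = ℚ(t)`), and
  moreover `dim Y` is odd, or `End(Y)` is of Albert type I or II and the relative dimension is not
  one of the numbers `2 ^ j`, `j ≥ 4`, `j ≡ 0, 1` modulo `4` and, if `k` is a number field,
  `2 j + 2 ≤ [k : ℚ]`;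
* `k` is a number field of odd degree and `dim Y ≤ 7`; or no totally real subfield `F ≠ ℚ` of `k` is
  fixed by all real embeddings of `k`, `dim Y ≤ 7`, and `End(Y)` is of Albert type I or II or `k`
  contains no imaginary quadratic field (and `Y` has trivial discriminant if `dim Y = 6` and `End(Y)`
  is an imaginary quadratic field).

(`SmallPeriods` and `GenericPeriods` in `Pool.Agent.N994.PG.Stm`.) The abelian varieties with periods
in number fields of a given degree `n > 2` are dense in the moduli spaces, in all dimensions.

The class (`IsGood`): there is an abelian variety `A` of dimension at most three such that each simple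
factor `Y` of `X` is

* a factor of `A`, or
* in `P`, or
* has no complex multiplication and is of one of the following types (`Typ`): dimension at most three;
  or the endomorphism algebra is an imaginary quadratic field which acts on the tangent space with
  multiplicities at most three (and with trivial discriminant for the multiplicities `(3, 3)`); or
  Albert type I or II and relative dimension at most three, or Hodge group equal to the Lefschetz group;
  or dimension five and endomorphism algebra `ℚ`. Here if an imaginary quadratic field acts on `Y` with
  two different multiplicities then `Y` is not a fourfold and the elliptic curve with complex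
  multiplication by this field is a factor of `A`.

The proof. By results on the Hodge groups of the abelian varieties in `P`
(`Pool.Agent.N994.FH.typ_of_periods`) and the theorem of
`Pool.Agent.Results.MP_90e98f_ag.PowersAndCMFields` (by helper178) the generalized Hodge conjecture is
true for all powers of `X`, in all degrees and for all levels. By the Künneth formula the cohomology of
`Λ^N M` is the exterior power of the vector space `H^m(M)`, in degree `N m`. An exterior product of `N`
vectors of pure types contains at most `g` vectors of type `(m, 0)`, so its type `(s, t)` has
`t ≥ N - g`, and `s ≥ N - g` for the same reason: the Hodge coniveau of `Λ^N M` is at least `N - g`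
(`Pool.Agent.N994.VO.coniveau_alt2`). By the generalized Hodge conjecture, Kimura's theorem and the
semisimplicity of the category of motives of abelian varieties modulo homological equivalence
(`Pool.Agent.N178.BL.mem_Fac`, by helper178) the homologically trivial cycles of dimension less than
`N - g` on `Λ^N M` are zero; and all cycles of such dimensions are homologically trivial.

The structures `ChowTheory` (`Pool.Agent.N178.BL.Defs`), `Projectors` (`Pool.Agent.N178.MU.Defs`) and
`Powers` (`Pool.Agent.N994.VO.Defs`) collect the known properties of the Chow groups of complex abelian
varieties and of the exterior products which are used. (The linear algebra in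
`Pool.Agent.N994.VO.VAN2` was proved by helper398, after helper572's `VAN`.)
-/

namespace Pool.Agent.Results.MP_292d0f_ag.ExteriorPowers

open Module Pool.Agent.Y90 Pool.Agent.R915
open Pool.Agent.N994.PG (SmallPeriods GenericPeriods)
open Pool.Agent.N178.BL (ChowTheory)
open Pool.Agent.N178.MU (Projectors)
open Pool.Agent.N994.VO (Powers pw HasWeight hodgeNumber)

/-- Classes of simple abelian varieties: dimension at most three; or the endomorphism algebra is
an imaginary quadratic field of signature `(p, q)` with `p, q ≤ 3` (and trivial discriminant for
`(3, 3)`); or Albert type I or II of relative dimension at most three; or dimension five and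
endomorphism algebra `ℚ`; or Albert type I or II, any dimension, with the largest possible Hodge
group. -/
def Typ (Y : AV) : Prop :=
  finrank ℚ Y.H ≤ 6 ∨ QuadMult Y ∨ RealMult Y ∨ FiveDim Y ∨ FullHodge Y

/-- There is an abelian variety `A` of dimension at most three such that each simple factor `Y` of `X`
is a factor of `A`; or has small or generic periods; or has no complex multiplication, belongs to one
of the classes in `Typ`, and if `ℚ(√-d)` acts on `Y` with two different multiplicities then `Y` is not
a fourfold and the elliptic curve `E` with complex multiplication by this field is a factor of `A`. -/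
def IsGood (X : AV) : Prop :=
  ∃ A : AV, finrank ℚ A.H ≤ 6 ∧
    ∀ Y, IsFactor Y X → IsFactor Y A ∨ SmallPeriods Y ∨ GenericPeriods Y ∨
      (¬ HasCMult Y ∧ Typ Y ∧ ∀ d : ℚ, Unbalanced Y d → finrank ℚ Y.H ≠ 8 ∧
        ∃ E, IsFactor E A ∧ finrank ℚ E.H = 2 ∧ Unbalanced E d)

theorem factor_pw {X W : AV} {n : ℕ} (h : IsFactor W (pw X n)) : IsFactor W X := by
  induction n with
  | zero => exact h
  | succ n ih => exact (Pool.Agent.N178.HW.factor_prod h).elim id ih

theorem ghc_pw {S : Sys} {X : AV} (hX : IsGood X) (n : ℕ) :
    Pool.Agent.N178.HX.GHC S (pw X n) := by
  obtain ⟨A, hA, hX⟩ := hX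
  exact Pool.Agent.N994.FH.ghc_typ S hA fun Y hY => hX Y (factor_pw hY)

/-- **The cycles of dimension `l ≤ n - 1` on the exterior power `Λ^(n + 1) M` are zero**, `n ≥ 1`, where
the motive `M = (X, p)` has cohomology in degree two only (for example `M = t_2(S)`, where `S` is a K3
surface) and `h^(2, 0)(M), h^(0, 2)(M) ≤ 1`, for `X` in the class `IsGood`. The cycles of dimension `l`
on `X^(n + 1)` are the correspondences `z` of degree `l` from a point `O` to `X^(n + 1)`; the sum is
`(n + 1)!` times the image of `z` under the projector of `Λ^(n + 1) M`. -/
theorem result (C : ChowTheory) (K : Projectors C) (P : Powers C) (X : AV) (hX : IsGood X)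
    (p : C.Co X X) (hp : C.IsMotive p) (hw : HasWeight p 2) (hg : hodgeNumber p 2 2 0 ≤ 1)
    (hg' : hodgeNumber p 2 0 2 ≤ 1) (O : AV) (hO : finrank ℚ O.H = 0) (n l : ℕ) (hl : l + 1 ≤ n)
    (z : C.Co O (pw X n)) (hz : C.IsDeg l z) :
    C.o (∑ σ : Equiv.Perm (Fin (n + 1)), (Equiv.Perm.sign σ : ℤ) •
      C.o (P.perm X n σ) (P.ext fun _ => p)) z = 0 := by
  have h := Pool.Agent.N994.VO.cycles_alt P Pool.Agent.N994.VO.t_VAN2 K le_rfl (by omega) hp hw
    (ghc_pw hX n) hg hg' hO hl hz
  have h1 : Pool.Agent.N994.VO.altSum P 2 p = ∑ σ : Equiv.Perm (Fin (n + 1)),
      (Equiv.Perm.sign σ : ℤ) • C.o (P.perm X n σ) (P.ext fun _ => p) := by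
    refine Finset.sum_congr rfl fun σ _ => ?_
    congr 1
    unfold Pool.Agent.N994.VO.sg
    rcases Int.units_eq_one_or (Equiv.Perm.sign σ) with h2 | h2 <;> rw [h2] <;> norm_num
  rw [← h1]
  exact h

end Pool.Agent.Results.MP_292d0f_ag.ExteriorPowers
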